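import Pool.Agent.THF.R.Mer
import Pool.Agent.QD.F.Growth
import Pool.Agent.QD.F.Quot

/-!
# THF/R-End: without poles on the central line the completed function is entire

PLAN.  `MERk`: `H, g, w`: `ord_z g ≤ ord_z H` for all `z` (as in THF/R/Hol.lean: `mer_ord` with `N = 1`, `hno`, functional equation), `entire_quot`: `Λ`, `H = g Λ`, `Λ = Lam` for `Re s > 3/2`.  `Λ s = w Λ (2 - s)`: from `H s g(2-s) = w H(2-s) g s` divide by `g s g (2 - s)` (not locally zero; continuity).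
`FinOrd Λ`: `MERn`: `f1, g1`, `g1 Λ^N = f1` (for `Re s > 3/2`, so everywhere), `finOrd_quot` (QD/F/Growth): `FinOrd (Λ^N)`; so `FinOrd Λ` (`‖Λ‖ ≤ max 1 ‖Λ‖^N`).
-/

namespace Pool.Agent.THF

open NumberField IsDedekindDomain Pool.Agent.HWR Pool.Agent.QD Pool.Agent.QD.In Pool.Agent.LD
  Pool.Agent.MD

open Filter Topology

private lemma end_fin {g : ℂ → ℂ} (hg : Differentiable ℂ g) (hg0 : ∃ s, g s ≠ 0) (z : ℂ) :
    analyticOrderAt g z ≠ ⊤ := by
  intro h7
  obtain ⟨s, hs⟩ := hg0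
  apply hs
  rw [AnalyticOnNhd.analyticOrderAt_eq_top_iff_eq_zero _ (fun z => hg.analyticAt z)] at h7
  rw [h7]
  rfl

private lemma end_canc {F g : ℂ → ℂ} (hF : Differentiable ℂ F) (hg : Differentiable ℂ g)
    (hg0 : ∃ s, g s ≠ 0) (h : ∀ s : ℂ, g s * g (2 - s) * F s = 0) : ∀ s : ℂ, F s = 0 := by
  intro z
  have hσ : AnalyticAt ℂ (fun s : ℂ => 2 - s) z := analyticAt_const.sub analyticAt_id
  have hσ' : deriv (fun s : ℂ => 2 - s) z ≠ 0 := by
    rw [deriv_const_sub, deriv_id'']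
    exact neg_ne_zero.2 one_ne_zero
  have hcg : analyticOrderAt (g ∘ fun s : ℂ => 2 - s) z = analyticOrderAt g (2 - z) :=
    analyticOrderAt_comp_of_deriv_ne_zero hσ hσ'
  have hagc : AnalyticAt ℂ (g ∘ fun s : ℂ => 2 - s) z := (hg.analyticAt (2 - z)).comp hσ
  have hga : AnalyticAt ℂ g z := hg.analyticAt z
  have hFa : AnalyticAt ℂ F z := hF.analyticAt z
  have h1 : g * (g ∘ fun s : ℂ => 2 - s) * F = 0 := by
    funext s
    exact h s
  have h2 : analyticOrderAt (g * (g ∘ fun s : ℂ => 2 - s) * F) z = ⊤ := by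
    rw [h1, analyticOrderAt_eq_top]
    exact Eventually.of_forall fun _ => rfl
  rw [analyticOrderAt_mul (hga.mul hagc) hFa, analyticOrderAt_mul hga hagc, hcg] at h2
  have h3 : analyticOrderAt F z = ⊤ := by
    rcases WithTop.add_eq_top.1 h2 with h4 | h4
    · rcases WithTop.add_eq_top.1 h4 with h5 | h5
      · exact absurd h5 (end_fin hg hg0 z)
      · exact absurd h5 (end_fin hg hg0 (2 - z))
    · exact h4
  rw [analyticOrderAt_eq_top] at h3
  exact h3.self_of_nhds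

private lemma end_finOrd {F : ℂ → ℂ} {N : ℕ} (hN : 0 < N) (h : FinOrd fun s => F s ^ N) :
    FinOrd F := by
  intro a b
  obtain ⟨A, C, hAC⟩ := h a b
  refine ⟨A, |C|, fun s h1 h2 => ?_⟩
  have h3 := hAC s h1 h2
  rw [norm_pow] at h3
  have hp : 0 ≤ (1 + |s.im|) ^ A := by positivity
  have h4 : Real.exp (C * (1 + |s.im|) ^ A) ≤ Real.exp (|C| * (1 + |s.im|) ^ A) :=
    Real.exp_le_exp.2 (mul_le_mul_of_nonneg_right (le_abs_self C) hp)
  have h5 : (1 : ℝ) ≤ Real.exp (|C| * (1 + |s.im|) ^ A) :=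
    Real.one_le_exp (by positivity)
  rcases le_or_gt ‖F s‖ 1 with h6 | h6
  · exact h6.trans h5
  · exact (le_self_pow₀ h6.le hN.ne').trans (h3.trans h4)

private lemma end_ext {f g : ℂ → ℂ} (hf : Differentiable ℂ f) (hg : Differentiable ℂ g)
    (h : ∀ s : ℂ, 3 / 2 < s.re → f s = g s) : ∀ s : ℂ, f s = g s := by
  have hev : f =ᶠ[nhds 2] g := by
    have h3 : {s : ℂ | 3 / 2 < s.re} ∈ nhds (2 : ℂ) :=
      (isOpen_lt continuous_const Complex.continuous_re).mem_nhds (by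
        change (3 / 2 : ℝ) < (2 : ℂ).re
        norm_num)
    exact Filter.mem_of_superset h3 fun s hs => h s hs
  have hEq : Set.EqOn f g Set.univ :=
    AnalyticOnNhd.eqOn_of_preconnected_of_eventuallyEq (fun z _ => hf.analyticAt z)
      (fun z _ => hg.analyticAt z) isPreconnected_univ (Set.mem_univ (2 : ℂ)) hev
  exact fun s => hEq (Set.mem_univ s)

theorem hwpm_of_nopole {T : Finset ℕ} (D : LocData T) {a : ℕ → ℝ} {F : Type} [Field F]
    [NumberField F] (hTp : ∀ p ∈ T, p.Prime) (hT : ∀ p : ℕ, p.Prime → p < 101 → p ∈ T)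
    (ha : ∀ q : ℕ, |a q| ≤ 2 * Real.sqrt q) (hR : RH D a F) (hMk : MERk D a F) {N : ℕ}
    (hN : 0 < N) (hM : MERn D a F N)
    (hno : ∀ (z : ℂ) (o : ℝ), z.re = 1 → LogO (RF D a F) z o → 0 ≤ o) : HWpm D a F := by
  obtain ⟨H, g, hH, hg, hgne, hgH, w, hw, hfe⟩ := hMk
  have hR' := RF_spec D a hR
  have hgH1 : ∀ s : ℂ, 3 / 2 < s.re → g s * D.Lam a F s ^ 1 = H s := fun s hs => by
    rw [pow_one]; exact hgH s hs
  obtain ⟨hq, hord⟩ := mer_ord D hTp hT ha hR one_pos hH hg hgne hgH1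
  simp only [pow_one, Nat.cast_one, div_one] at hq hord
  have h2ne : g 2 ≠ 0 := hgne 2 (by rw [Complex.re_ofNat]; norm_num)
  have hr : ∀ z : ℂ, 1 < z.re → analyticOrderAt g z ≤ analyticOrderAt H z :=
    (ord_right hH hg hR'.1 (fun s hs => (hq s (by linarith)).symm)).2
  have hl : ∀ z : ℂ, z.re < 1 → analyticOrderAt g z ≤ analyticOrderAt H z := by
    refine ord_left hH hg ⟨2, h2ne⟩ (w := w) ?_ hfe hr
    rcases hw with h | h <;> rw [h] <;> norm_num
  have hall : ∀ z : ℂ, analyticOrderAt g z ≤ analyticOrderAt H z := by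
    intro z
    rcases lt_trichotomy z.re 1 with h1 | h1 | h1
    · exact hl z h1
    · obtain ⟨p, n, hp, hn, hL⟩ := hord z
      have h5 := hno z _ h1 (hL h1.ge)
      have h6 : (n : ℝ) ≤ (p : ℝ) := by linarith
      have h7 : n ≤ p := by exact_mod_cast h6
      rw [hp, hn]
      exact_mod_cast h7
    · exact hr z h1
  obtain ⟨L, hL, hHL⟩ := entire_quot hH hg ⟨2, h2ne⟩ hall
  have hLam : ∀ s : ℂ, 3 / 2 < s.re → L s = D.Lam a F s := by
    intro s hs
    apply mul_left_cancel₀ (hgne s hs)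
    rw [← hHL, hgH s hs]
  have hL2 : Differentiable ℂ fun s : ℂ => L (2 - s) := hL.comp (differentiable_id.const_sub 2)
  have hfe2 : ∀ s : ℂ, L s - w * L (2 - s) = 0 := by
    refine end_canc (F := fun s => L s - w * L (2 - s)) (hL.sub (hL2.const_mul w)) hg ⟨2, h2ne⟩ ?_
    intro s
    have h1 := hfe s
    rw [hHL s, hHL (2 - s)] at h1
    linear_combination h1
  obtain ⟨f1, g1, hf1, hg1, hf1o, hg1o, hg1ne, ⟨c, hc, k, hlow⟩, hfg1, -⟩ := hM
  have hLN : Differentiable ℂ fun s => L s ^ N := hL.pow N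
  have he : ∀ s : ℂ, f1 s = g1 s * L s ^ N := by
    refine end_ext hf1 (hg1.mul hLN) fun s hs => ?_
    rw [← hfg1 s hs, ← hLam s hs]
  have hLNo : FinOrd fun s => L s ^ N := finOrd_quot hf1 hg1 hLN hf1o hg1o he hc hlow
  refine ⟨L, hL, end_finOrd hN hLNo, ?_, hLam⟩
  rcases hw with h | h
  · left
    intro s
    have h1 := hfe2 s
    rw [h, one_mul] at h1
    exact sub_eq_zero.1 h1
  · right
    intro s
    have h1 := hfe2 s
    rw [h] at h1
    linear_combination h1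

end Pool.Agent.THF
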