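import Pool.Agent.THF.R.Root
import Pool.Agent.THF.O.Mer0

/-!
# THF/R-Mer: the completed function itself is a quotient of entire functions (paper section 6)

PLAN.  `MERn`: `f, g`, `w = ± 1`.  `h = f * g^(N-1)`, not identically zero.  All orders are divisible by `N`: with `m, n` from `mer_ord` (`analyticOrderAt f z = m`, `analyticOrderAt g z = n`), `ord h = m + (N-1) n`, so the claim is `N ∣ m - n` in `ℤ`.
`Re z > 1`: `(m - n)/N = ord RF` is a natural number (`ord_int`, `logO_unique`); `Re z = 1`: `(m - n)/N = k` (`hint`, `logO_unique`); `Re z < 1`: from `f s * g (2 - s) = w * (f (2 - s) * g s)`: `m(z) + n(2-z) = m(2-z) + n(z)` (order of `s ↦ f (2 - s)` at `z` is the order of `f` at `2 - z`: see `ord_left`, QD/F/Ord).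
`exists_root`: `H0^N = h`.  For `Re s > 3/2`: `(g Lam)^N = g^(N-1) f = h = H0^N`, both without zeros (`RF_ne`; `g ≠ 0`), `root_prop_on`: `g Lam = κ H0`, `κ^N = 1`; `H = κ H0`, `H^N = h` everywhere.  Functional equation: `(H s g (2-s))^N = f s g(s)^(N-1) g(2-s)^N = w f(2-s) g(2-s)^(N-1) g(s)^N = w (H (2-s) g s)^N`:
`root_prop` with `G1 s = H s * g (2 - s)`, `G2 s = H (2 - s) * g s`: `G1 = κ G2`, `κ^N = w`; `s ↦ 2 - s`: `G1 (2 - s) = G2 s`, so `G2 = κ G1 = κ² G2`: `κ² = 1`, `κ = ± 1`.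
-/

namespace Pool.Agent.THF

open NumberField IsDedekindDomain Pool.Agent.HWR Pool.Agent.QD Pool.Agent.QD.In Pool.Agent.LD
  Pool.Agent.MD

/-- orders at the reflected point -/
private theorem mer_refl {f g : ℂ → ℂ} (hf : Differentiable ℂ f) (hg : Differentiable ℂ g)
    {w : ℂ} (hw : w ≠ 0) (hfe : ∀ s : ℂ, f s * g (2 - s) = w * (f (2 - s) * g s)) (z : ℂ) :
    analyticOrderAt f z + analyticOrderAt g (2 - z) =
      analyticOrderAt f (2 - z) + analyticOrderAt g z := by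
  have hfa : ∀ z, AnalyticAt ℂ f z := fun z => hf.analyticAt z
  have hga : ∀ z, AnalyticAt ℂ g z := fun z => hg.analyticAt z
  have hσ : AnalyticAt ℂ (fun s : ℂ => 2 - s) z := analyticAt_const.sub analyticAt_id
  have hσ' : deriv (fun s : ℂ => 2 - s) z ≠ 0 := by
    rw [deriv_const_sub, deriv_id'']
    exact neg_ne_zero.2 one_ne_zero
  have hcf : analyticOrderAt (f ∘ fun s : ℂ => 2 - s) z = analyticOrderAt f (2 - z) :=
    analyticOrderAt_comp_of_deriv_ne_zero hσ hσ'
  have hcg : analyticOrderAt (g ∘ fun s : ℂ => 2 - s) z = analyticOrderAt g (2 - z) :=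
    analyticOrderAt_comp_of_deriv_ne_zero hσ hσ'
  have hafc : AnalyticAt ℂ (f ∘ fun s : ℂ => 2 - s) z := (hfa (2 - z)).comp hσ
  have hagc : AnalyticAt ℂ (g ∘ fun s : ℂ => 2 - s) z := (hga (2 - z)).comp hσ
  have hw' : analyticOrderAt (fun _ : ℂ => w) z = 0 :=
    (analyticAt_const.analyticOrderAt_eq_zero).2 hw
  have hfun : f * (g ∘ fun s : ℂ => 2 - s) =
      (fun _ : ℂ => w) * ((f ∘ fun s : ℂ => 2 - s) * g) := by
    funext s
    exact hfe s
  rw [← hcg, ← hcf, ← analyticOrderAt_mul (hfa z) hagc, hfun,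
    analyticOrderAt_mul analyticAt_const (hafc.mul (hga z)),
    analyticOrderAt_mul hafc (hga z), hw', zero_add]

/-- an entire function which is not zero at a point has finite orders -/
private theorem mer_ne_top {h : ℂ → ℂ} (hd : Differentiable ℂ h) (hne : ∃ z, h z ≠ 0) (z : ℂ) :
    analyticOrderAt h z ≠ ⊤ := by
  intro h7
  obtain ⟨s, hs⟩ := hne
  apply hs
  rw [AnalyticOnNhd.analyticOrderAt_eq_top_iff_eq_zero _ (fun z => hd.analyticAt z)] at h7
  rw [h7]
  rfl

theorem merk {T : Finset ℕ} (D : LocData T) {a : ℕ → ℝ} {F : Type} [Field F] [NumberField F]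
    (hTp : ∀ p ∈ T, p.Prime) (hT : ∀ p : ℕ, p.Prime → p < 101 → p ∈ T)
    (ha : ∀ q : ℕ, |a q| ≤ 2 * Real.sqrt q) (hR : RH D a F) {N : ℕ} (hN : 0 < N)
    (hM : MERn D a F N) (hint : ∀ z : ℂ, z.re = 1 → ∃ k : ℤ, LogO (RF D a F) z k) :
    MERk D a F := by
  obtain ⟨f, g, hf, hg, -, -, hgne, -, hfg, w, hw, hfe⟩ := hM
  obtain ⟨-, hB⟩ := mer_ord D hTp hT ha hR hN hf hg hgne hfg
  have hw0 : w ≠ 0 := by
    rcases hw with rfl | rfl
    · exact one_ne_zero
    · exact neg_ne_zero.2 one_ne_zero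
  have hNR : (N : ℝ) ≠ 0 := by exact_mod_cast hN.ne'
  have hkey : ∀ z : ℂ, 1 ≤ z.re → ∀ m n : ℕ, analyticOrderAt f z = m → analyticOrderAt g z = n →
      ∃ k : ℤ, (m : ℤ) - n = N * k := by
    intro z hz m n hm hn
    obtain ⟨m', n', hm', hn', hL⟩ := hB z
    have e1 : m' = m := by exact_mod_cast hm'.symm.trans hm
    have e2 : n' = n := by exact_mod_cast hn'.symm.trans hn
    rw [e1, e2] at hL
    have h1 := hL hz
    have h2 : ∃ k : ℤ, ((m : ℝ) - n) / N = k := by
      rcases hz.lt_or_eq with h3 | h3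
      · obtain ⟨k, -, hk⟩ := ord_int D hTp hT ha hR h3
        exact ⟨k, by rw [logO_unique h1 hk]; norm_num⟩
      · obtain ⟨k, hk⟩ := hint z h3.symm
        exact ⟨k, logO_unique h1 hk⟩
    obtain ⟨k, hk⟩ := h2
    refine ⟨k, ?_⟩
    rw [div_eq_iff hNR] at hk
    have h4 : ((m : ℤ) : ℝ) - ((n : ℤ) : ℝ) = ((N : ℤ) : ℝ) * (k : ℝ) := by
      push_cast
      rw [hk, mul_comm]
    exact_mod_cast h4
  have hall : ∀ (z : ℂ) (m n : ℕ), analyticOrderAt f z = m → analyticOrderAt g z = n →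
      ∃ k : ℤ, (m : ℤ) - n = N * k := by
    intro z m n hm hn
    rcases le_or_gt 1 z.re with hz | hz
    · exact hkey z hz m n hm hn
    · obtain ⟨m', n', hm', hn', -⟩ := hB (2 - z)
      have h1 : 1 ≤ (2 - z).re := by
        simp only [Complex.sub_re, Complex.re_ofNat]
        linarith
      obtain ⟨k, hk⟩ := hkey (2 - z) h1 m' n' hm' hn'
      have h2 := mer_refl hf hg hw0 hfe z
      rw [hm, hn, hm', hn'] at h2
      have h3 : m + n' = m' + n := by exact_mod_cast h2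
      refine ⟨k, ?_⟩
      rw [← hk]
      omega
  have hspec := RF_spec D a hR
  have hRne : ∀ s : ℂ, 3 / 2 < s.re → D.Lam a F s ≠ 0 := by
    intro s hs
    rw [← hspec.2 s hs]
    exact RF_ne D hTp hT ha hR hs
  have hfne : ∀ s : ℂ, 3 / 2 < s.re → f s ≠ 0 := by
    intro s hs
    rw [← hfg s hs]
    exact mul_ne_zero (hgne s hs) (pow_ne_zero _ (hRne s hs))
  have h2re : (3 / 2 : ℝ) < (2 : ℂ).re := by
    rw [Complex.re_ofNat]
    norm_num
  obtain ⟨h, hh⟩ : ∃ h : ℂ → ℂ, h = fun s => f s * g s ^ (N - 1) := ⟨_, rfl⟩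
  have hhd : Differentiable ℂ h := by
    rw [hh]
    exact hf.mul (hg.pow _)
  have hhne : ∀ s : ℂ, 3 / 2 < s.re → h s ≠ 0 := by
    intro s hs
    rw [hh]
    exact mul_ne_zero (hfne s hs) (pow_ne_zero _ (hgne s hs))
  have hev : ∀ (z : ℂ) (n : ℕ), analyticOrderAt h z = n → N ∣ n := by
    intro z r hr
    obtain ⟨m, n, hm, hn, -⟩ := hB z
    obtain ⟨k, hk⟩ := hall z m n hm hn
    have hfun : h = f * g ^ (N - 1) := by
      rw [hh]
      rfl
    rw [hfun, analyticOrderAt_mul (hf.analyticAt z) ((hg.analyticAt z).pow _),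
      analyticOrderAt_pow (hg.analyticAt z), hm, hn] at hr
    have h1 : m + (N - 1) * n = r := by
      have h2 : ((m + (N - 1) * n : ℕ) : ℕ∞) = (r : ℕ∞) := by
        rw [← hr]
        push_cast
        rfl
      exact_mod_cast h2
    have h3 : (r : ℤ) = N * (k + n) := by
      rw [← h1]
      push_cast [Nat.cast_sub (show 1 ≤ N from hN)]
      linear_combination hk
    exact Int.natCast_dvd_natCast.1 ⟨_, h3⟩
  obtain ⟨H0, hH0d, hH0⟩ := exists_root hN hhd ⟨2, hhne 2 h2re⟩ hev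
  have hpw : ∀ s : ℂ, g s ^ (N - 1) * g s = g s ^ N := by
    intro s
    rw [← pow_succ]
    congr 1
    omega
  have hH0ne : ∀ s : ℂ, 3 / 2 < s.re → H0 s ≠ 0 := by
    intro s hs h1
    apply hhne s hs
    rw [← hH0 s, h1, zero_pow hN.ne']
  obtain ⟨κ, hκ, hκe⟩ := root_prop_on (G1 := fun s => g s * RF D a F s) (G2 := H0) (x := 3 / 2) hN
    ((hg.differentiableOn).mul (hspec.1.mono fun s (hs : 3 / 2 < s.re) => by
      change 1 < s.re
      linarith)) hH0d.differentiableOn hH0ne (w := 1) one_ne_zero (fun s hs => by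
        rw [hH0 s, one_mul, hh]
        change (g s * RF D a F s) ^ N = f s * g s ^ (N - 1)
        rw [mul_pow, hspec.2 s hs, ← hfg s hs, ← hpw s]
        ring)
  have hκ0 : κ ≠ 0 := by
    rintro rfl
    rw [zero_pow hN.ne'] at hκ
    exact zero_ne_one hκ
  obtain ⟨H, hHdef⟩ : ∃ H : ℂ → ℂ, H = fun s => κ * H0 s := ⟨_, rfl⟩
  have hHd : Differentiable ℂ H := by
    rw [hHdef]
    exact hH0d.const_mul _
  have hHN : ∀ s, H s ^ N = f s * g s ^ (N - 1) := by
    intro s
    rw [hHdef, mul_pow, hκ, one_mul, hH0, hh]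
  have hHne : ∃ z, H z ≠ 0 := by
    refine ⟨2, ?_⟩
    rw [hHdef]
    exact mul_ne_zero hκ0 (hH0ne 2 h2re)
  have hG1d : Differentiable ℂ fun s => H s * g (2 - s) :=
    hHd.mul (hg.comp ((differentiable_const (2 : ℂ)).sub differentiable_id))
  have hG2d : Differentiable ℂ fun s => H (2 - s) * g s :=
    (hHd.comp ((differentiable_const (2 : ℂ)).sub differentiable_id)).mul hg
  have hG2ne : ∃ z, H (2 - z) * g z ≠ 0 := by
    by_contra hcon
    push Not at hcon
    have h1 : AnalyticOnNhd ℂ (fun s => H (2 - s)) Set.univ := fun z _ =>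
      (hHd.comp ((differentiable_const (2 : ℂ)).sub differentiable_id)).analyticAt z
    have h2 : AnalyticAt ℂ (fun s => H (2 - s)) 0 := h1 0 trivial
    have h3 : ((fun s => H (2 - s)) * g) = fun _ => 0 := by
      funext s
      exact hcon s
    have h4 := analyticOrderAt_mul h2 (hg.analyticAt 0)
    rw [h3] at h4
    have h5 : analyticOrderAt (fun _ : ℂ => (0 : ℂ)) 0 = ⊤ := by
      rw [analyticOrderAt_eq_top]
      exact Filter.Eventually.of_forall fun _ => rfl
    rw [h5] at h4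
    rcases WithTop.add_eq_top.1 h4.symm with h6 | h6
    · refine mer_ne_top (hHd.comp ((differentiable_const (2 : ℂ)).sub differentiable_id)) ?_ 0 h6
      obtain ⟨z, hz⟩ := hHne
      refine ⟨2 - z, ?_⟩
      change H (2 - (2 - z)) ≠ 0
      rwa [sub_sub_cancel]
    · exact mer_ne_top hg ⟨2, hgne 2 h2re⟩ 0 h6
  obtain ⟨κ', hκ', hκe'⟩ := root_prop hN hG1d hG2d hG2ne hw0 (fun s => by
    have e1 := hpw (2 - s)
    have e2 := hpw s
    have e3 := hfe s
    rw [mul_pow, mul_pow, hHN, hHN, ← e1, ← e2]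
    linear_combination (g s ^ (N - 1) * g (2 - s) ^ (N - 1)) * e3)
  refine ⟨H, g, hHd, hg, hgne, fun s hs => ?_, κ', ?_, hκe'⟩
  · have h1 := hκe s hs
    rw [hspec.2 s hs] at h1
    rw [h1, hHdef]
  · obtain ⟨z, hz⟩ := hG2ne
    have h1 := hκe' z
    have h2 := hκe' (2 - z)
    rw [sub_sub_cancel] at h2
    rw [h1] at h2
    have h3 : H (2 - z) * g z * (κ' ^ 2 - 1) = 0 := by
      linear_combination (-1 : ℂ) * h2
    have h4 := (mul_eq_zero.1 h3).resolve_left hz
    have h5 : (κ' - 1) * (κ' + 1) = 0 := by linear_combination h4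
    rcases mul_eq_zero.1 h5 with h6 | h6
    · exact Or.inl (sub_eq_zero.1 h6)
    · exact Or.inr (eq_neg_of_add_eq_zero_left h6)

end Pool.Agent.THF
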