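import Pool.Agent.THF.R.Mer

/-!
# THF/R-Hol: the completed function in a strip around `Im s = Im z0`

PLAN.  `MERk`: `H, g, w`; `mer_ord` with `N = 1`: at every `z` the orders `m(z)`, `n(z)` of `H`, `g` are finite, and for `Re z ≥ 1` `LogO (RF) z (m - n)`.  Put `P s = (s - z0)^m0 * H s`.  Claim: for every `z` in `U = {|Im (t - z0)| < ρ} ∪ {1 < Re t}`: `ord_z g ≤ ord_z P`: `Re z > 1`: `g RF = H` (first part of
`mer_ord`), `ord H = ord g + ord RF`; `Re z = 1`, `z ≠ z0`: `hne`; `z = z0`: `h0`; `Re z < 1`: by the functional equation `m(z) - n(z) = m(2-z) - n(2-z) ≥ 0`.  Then the quotient `G = P / g` extends holomorphically to `U`: local quotients (as in `entire_quot`, QD/F/Quot; e.g. `toMeromorphicNFOn`), or directly: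
`G t = limUnder (𝓝[≠] t) (P/g)`.  For `Re t > 1`: `g G = P = (t - z0)^m0 g RF`, so `G = (t - z0)^m0 RF` (`g` not locally zero).  Near `z0`: `ord G = m0 + ord H - ord g = m0 + o` at `z0`: `G z0 = 0` iff this is `> 0`.
-/

namespace Pool.Agent.THF

open NumberField IsDedekindDomain Pool.Agent.HWR Pool.Agent.QD Pool.Agent.QD.In Pool.Agent.LD
  Pool.Agent.MD

open Filter Topology

private lemma quot_on {f g : ℂ → ℂ} (hf : Differentiable ℂ f) (hg : Differentiable ℂ g)
    (hg0 : ∃ s, g s ≠ 0) {U : Set ℂ} (hU : IsOpen U)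
    (ho : ∀ z ∈ U, analyticOrderAt g z ≤ analyticOrderAt f z) :
    ∃ h : ℂ → ℂ, DifferentiableOn ℂ h U ∧ ∀ s ∈ U, f s = g s * h s := by
  have hfa : ∀ z, AnalyticAt ℂ f z := fun z => hf.analyticAt z
  have hga : ∀ z, AnalyticAt ℂ g z := fun z => hg.analyticAt z
  have hloc : ∀ z ∈ U, ∃ φ : ℂ → ℂ, AnalyticAt ℂ φ z ∧ (∀ᶠ w in 𝓝 z, f w = g w * φ w) ∧
      ∀ᶠ w in 𝓝[≠] z, g w ≠ 0 := by
    intro z hz
    have hfin : analyticOrderAt g z ≠ ⊤ := by
      intro htop
      rw [analyticOrderAt_eq_top] at htop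
      obtain ⟨s, hs⟩ := hg0
      have h1 : AnalyticOnNhd ℂ g Set.univ := fun w _ => hga w
      have h2 := h1.eqOn_zero_of_preconnected_of_eventuallyEq_zero isPreconnected_univ
        (Set.mem_univ z) htop
      exact hs (h2 (Set.mem_univ s))
    obtain ⟨n, hn⟩ := ENat.ne_top_iff_exists.1 hfin
    obtain ⟨g1, hg1, hg1z, hg1e⟩ := (hga z).analyticOrderAt_eq_natCast.1 hn.symm
    have hno : (n : ℕ∞) ≤ analyticOrderAt f z := by
      rw [hn]
      exact ho z hz
    obtain ⟨f2, hf2, hf2e⟩ := (natCast_le_analyticOrderAt (hfa z)).1 hno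
    have hne : ∀ᶠ w in 𝓝 z, g1 w ≠ 0 := hg1.continuousAt.eventually_ne hg1z
    refine ⟨fun w => f2 w / g1 w, hf2.div hg1 hg1z, ?_, ?_⟩
    · filter_upwards [hg1e, hf2e, hne] with w h1 h2 h3
      rw [h1, h2]
      simp only [smul_eq_mul]
      field_simp
    · rw [eventually_nhdsWithin_iff]
      filter_upwards [hg1e, hne] with w h1 h3 hw
      rw [h1]
      exact smul_ne_zero (pow_ne_zero n (sub_ne_zero.2 hw)) h3
  have hnz : ∀ z ∈ U, ∀ᶠ w in 𝓝[≠] z, g w ≠ 0 := fun z hz => by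
    obtain ⟨φ, -, -, h⟩ := hloc z hz
    exact h
  have hlim : ∀ z ∈ U, ∀ (φ : ℂ → ℂ), AnalyticAt ℂ φ z → (∀ᶠ w in 𝓝 z, f w = g w * φ w) →
      limUnder (𝓝[≠] z) (fun w => f w / g w) = φ z := by
    intro z hz φ hφ he
    apply Tendsto.limUnder_eq
    have h1 : Tendsto φ (𝓝[≠] z) (𝓝 (φ z)) := hφ.continuousAt.tendsto.mono_left nhdsWithin_le_nhds
    refine h1.congr' ?_
    filter_upwards [hnz z hz, he.filter_mono nhdsWithin_le_nhds] with w h2 h3
    rw [h3]
    field_simp
  refine ⟨fun s => limUnder (𝓝[≠] s) (fun w => f w / g w), fun z hz => ?_, fun z hz => ?_⟩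
  · obtain ⟨φ, hφ, he, -⟩ := hloc z hz
    refine (hφ.differentiableAt.congr_of_eventuallyEq ?_).differentiableWithinAt
    filter_upwards [hφ.eventually_analyticAt, he.eventually_nhds, hU.mem_nhds hz] with w h1 h2 h3
    exact hlim w h3 φ h1 h2
  · obtain ⟨φ, hφ, he, -⟩ := hloc z hz
    simp only
    rw [hlim z hz φ hφ he]
    exact he.self_of_nhds

theorem hol_strip {T : Finset ℕ} (D : LocData T) {a : ℕ → ℝ} {F : Type} [Field F]
    [NumberField F] (hTp : ∀ p ∈ T, p.Prime) (hT : ∀ p : ℕ, p.Prime → p < 101 → p ∈ T)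
    (ha : ∀ q : ℕ, |a q| ≤ 2 * Real.sqrt q) (hR : RH D a F) (hM : MERk D a F) {z0 : ℂ}
    (hz0 : z0.re = 1) {ρ : ℝ} (hρ : 0 < ρ)
    (hne : ∀ (z : ℂ) (o : ℝ), z.re = 1 → z ≠ z0 → ‖z - z0‖ < ρ → LogO (RF D a F) z o → 0 ≤ o)
    (m : ℕ) (h0 : ∀ o : ℝ, LogO (RF D a F) z0 o → -(m : ℝ) ≤ o) :
    ∃ G : ℂ → ℂ, DifferentiableOn ℂ G {t : ℂ | 1 < t.re ∨ |t.im - z0.im| < ρ} ∧
      (∀ t : ℂ, 1 < t.re → G t = (t - z0) ^ m * RF D a F t) ∧
      ∀ o : ℝ, LogO (RF D a F) z0 o → (G z0 = 0 ↔ -(m : ℝ) < o) := by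
  obtain ⟨H, g, hH, hg, hgne, hgH, w, hw, hfe⟩ := hM
  have hR' := RF_spec D a hR
  have hgH1 : ∀ s : ℂ, 3 / 2 < s.re → g s * D.Lam a F s ^ 1 = H s := fun s hs => by
    rw [pow_one]; exact hgH s hs
  obtain ⟨hq, hord⟩ := mer_ord D hTp hT ha hR one_pos hH hg hgne hgH1
  simp only [pow_one, Nat.cast_one, div_one] at hq hord
  have hHa : ∀ z, AnalyticAt ℂ H z := fun z => hH.analyticAt z
  have hga : ∀ z, AnalyticAt ℂ g z := fun z => hg.analyticAt z
  have h2ne : g 2 ≠ 0 := hgne 2 (by rw [Complex.re_ofNat]; norm_num)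
  have hRa : AnalyticOnNhd ℂ (RF D a F) {s : ℂ | 1 < s.re} :=
    hR'.1.analyticOnNhd (isOpen_lt continuous_const Complex.continuous_re)
  have hr : ∀ z : ℂ, 1 < z.re → analyticOrderAt g z ≤ analyticOrderAt H z :=
    (ord_right hH hg hR'.1 (fun s hs => (hq s (by linarith)).symm)).2
  have hl : ∀ z : ℂ, z.re < 1 → analyticOrderAt g z ≤ analyticOrderAt H z := by
    refine ord_left hH hg ⟨2, h2ne⟩ (w := w) ?_ hfe hr
    rcases hw with h | h <;> rw [h] <;> norm_num
  set Q : ℂ → ℂ := fun s => (s - z0) ^ m with hQ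
  have hQd : Differentiable ℂ Q := by
    rw [hQ]
    exact (differentiable_id.sub_const z0).pow m
  have hQa : ∀ z, AnalyticAt ℂ Q z := fun z => hQd.analyticAt z
  have hPo : ∀ z, analyticOrderAt (Q * H) z = analyticOrderAt Q z + analyticOrderAt H z :=
    fun z => analyticOrderAt_mul (hQa z) (hHa z)
  have hQ0 : analyticOrderAt Q z0 = m := by
    rw [(hQa z0).analyticOrderAt_eq_natCast]
    refine ⟨fun _ => 1, analyticAt_const, one_ne_zero, ?_⟩
    filter_upwards with s
    rw [hQ]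
    simp
  set U : Set ℂ := {t : ℂ | 1 < t.re ∨ |t.im - z0.im| < ρ} with hUdef
  have hUo : IsOpen U := by
    have h1 : IsOpen {t : ℂ | 1 < t.re} := isOpen_lt continuous_const Complex.continuous_re
    have h2 : IsOpen {t : ℂ | |t.im - z0.im| < ρ} :=
      isOpen_lt ((Complex.continuous_im.sub continuous_const).abs) continuous_const
    exact h1.union h2
  have hUle : ∀ z ∈ U, analyticOrderAt g z ≤ analyticOrderAt (Q * H) z := by
    intro z hz
    rw [hPo]
    rcases lt_trichotomy z.re 1 with h1 | h1 | h1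
    · exact (hl z h1).trans le_add_self
    · have h2 : |z.im - z0.im| < ρ := by
        rcases hz with h | h
        · exact absurd h1 (ne_of_gt h)
        · exact h
      obtain ⟨p, n, hp, hn, hL⟩ := hord z
      have hL1 := hL h1.ge
      by_cases hzz : z = z0
      · subst hzz
        have h3 := h0 _ hL1
        rw [hQ0, hp, hn]
        have h4 : (n : ℝ) ≤ (m : ℝ) + (p : ℝ) := by linarith
        have h5 : n ≤ m + p := by exact_mod_cast h4
        exact_mod_cast h5
      · have h3 : ‖z - z0‖ < ρ := by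
          have h4 : z - z0 = ((z.im - z0.im : ℝ) : ℂ) * Complex.I := by
            apply Complex.ext
            · simp [h1, hz0]
            · simp
          rw [h4, norm_mul, Complex.norm_I, mul_one, Complex.norm_real]
          exact h2
        have h5 := hne z _ h1 hzz h3 hL1
        have h6 : (n : ℝ) ≤ (p : ℝ) := by linarith
        have h7 : n ≤ p := by exact_mod_cast h6
        rw [hp, hn]
        have h8 : (n : ℕ∞) ≤ (p : ℕ∞) := by exact_mod_cast h7
        exact h8.trans le_add_self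
    · exact (hr z h1).trans le_add_self
  have hQHd : Differentiable ℂ (Q * H) := hQd.mul hH
  obtain ⟨G, hGd, hG⟩ := quot_on hQHd hg ⟨2, h2ne⟩ hUo hUle
  refine ⟨G, hGd, ?_, ?_⟩
  · have hsub : {s : ℂ | 1 < s.re} ⊆ U := fun s hs => Or.inl hs
    have hUr : IsOpen {s : ℂ | 1 < s.re} := isOpen_lt continuous_const Complex.continuous_re
    have hG1 : AnalyticOnNhd ℂ G {s : ℂ | 1 < s.re} := (hGd.mono hsub).analyticOnNhd hUr
    have hG2 : AnalyticOnNhd ℂ (fun s => (s - z0) ^ m * RF D a F s) {s : ℂ | 1 < s.re} :=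
      fun s hs => (hQa s).mul (hRa s hs)
    have h2m : (2 : ℂ) ∈ {s : ℂ | 1 < s.re} := by
      simp
    have hev : G =ᶠ[nhds 2] fun s => (s - z0) ^ m * RF D a F s := by
      have h3 : {s : ℂ | 3 / 2 < s.re} ∈ nhds (2 : ℂ) :=
        (isOpen_lt continuous_const Complex.continuous_re).mem_nhds (by
          change (3 / 2 : ℝ) < (2 : ℂ).re
          norm_num)
      refine Filter.mem_of_superset h3 fun s hs => ?_
      have hs' : 3 / 2 < s.re := hs
      have hs1 : 1 < s.re := by linarith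
      have h4 : (s - z0) ^ m * H s = g s * G s := hG s (hsub hs1)
      have h5 := hq s hs1
      have h6 := hgne s hs'
      change G s = (s - z0) ^ m * RF D a F s
      apply mul_left_cancel₀ h6
      rw [← h4, ← h5]
      ring
    exact fun t ht => hG1.eqOn_of_preconnected_of_eventuallyEq hG2
      (convex_halfSpace_re_gt 1).isPreconnected h2m hev ht
  · intro o ho
    obtain ⟨p, n, hp, hn, hL⟩ := hord z0
    have hoe : o = (p : ℝ) - n := logO_unique ho (hL hz0.ge)
    have hzU : z0 ∈ U := Or.inr (by rw [sub_self, abs_zero]; exact hρ)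
    have hGa : AnalyticAt ℂ G z0 := hGd.analyticAt (hUo.mem_nhds hzU)
    have hev : (Q * H) =ᶠ[nhds z0] (g * G) :=
      Filter.mem_of_superset (hUo.mem_nhds hzU) fun s hs => hG s hs
    have h1 : (m : ℕ∞) + p = n + analyticOrderAt G z0 := by
      rw [← hQ0, ← hp, ← hPo, analyticOrderAt_congr hev, analyticOrderAt_mul (hga z0) hGa, hn]
    have h2 : G z0 = 0 ↔ analyticOrderAt G z0 ≠ 0 := by
      rw [Ne, hGa.analyticOrderAt_eq_zero, not_not]
    rw [h2]
    have hfin : analyticOrderAt G z0 ≠ ⊤ := by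
      intro h3
      rw [h3, add_top] at h1
      exact absurd h1 (by exact_mod_cast ENat.natCast_ne_top (m + p))
    obtain ⟨k, hk⟩ := ENat.ne_top_iff_exists.1 hfin
    rw [← hk] at h1 ⊢
    have h3 : m + p = n + k := by exact_mod_cast h1
    have h4 : (m : ℝ) + p = n + k := by exact_mod_cast h3
    rw [hoe]
    constructor
    · intro h5
      have h6 : k ≠ 0 := by exact_mod_cast h5
      have h7 : (1 : ℝ) ≤ k := by exact_mod_cast Nat.one_le_iff_ne_zero.2 h6
      linarith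
    · intro h5 h6
      have h7 : k = 0 := by exact_mod_cast h6
      rw [h7] at h4
      push_cast at h4
      linarith

end Pool.Agent.THF
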