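import Pool.Agent.THF.R.RootB

/-!
# THF/R-Root: entire functions all of whose orders are divisible by `N` are `N`-th powers

PLAN.  Copy the gluing of `exists_sqrt` (MD/S/Sqrt.lean): fix `z1` with `h z1 ≠ 0` and a root `c` of `h z1`; on `ball 0 n` (`n > |z1|`) the root `G_n` normalised by `G_n z1 = c` (multiply by an `N`-th root of unity) is unique: near `z1` two of them are nonzero and their quotient is an `N`-th root of unity, continuous
with value `1` at `z1`, so `1` near `z1` (the roots of unity are a finite discrete set), and the identity theorem on the ball.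
-/

namespace Pool.Agent.THF

open Filter Topology in
private theorem root_agree {N : ℕ} (hN : 0 < N) {U : Set ℂ} (hU : IsOpen U) (hUc : IsPreconnected U)
    {F G : ℂ → ℂ} (hF : DifferentiableOn ℂ F U) (hG : DifferentiableOn ℂ G U) {z1 : ℂ}
    (hz1 : z1 ∈ U) (h1 : F z1 = G z1) (h0 : G z1 ≠ 0) (he : ∀ z ∈ U, F z ^ N = G z ^ N) :
    ∀ z ∈ U, F z = G z := by
  have hFa : AnalyticOnNhd ℂ F U := hF.analyticOnNhd hU
  have hGa : AnalyticOnNhd ℂ G U := hG.analyticOnNhd hU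
  have hfin : {w : ℂ | w ^ N = 1}.Finite := by
    refine Set.Finite.subset (Polynomial.nthRoots N (1 : ℂ)).toFinset.finite_toSet ?_
    intro w hw
    rw [Finset.mem_coe, Multiset.mem_toFinset, Polynomial.mem_nthRoots hN]
    exact hw
  have hcl : IsClosed ({w : ℂ | w ^ N = 1} \ {1}) := (hfin.subset Set.sdiff_subset).isClosed
  have hq : ContinuousAt (fun z => F z / G z) z1 :=
    ((hFa z1 hz1).continuousAt).div ((hGa z1 hz1).continuousAt) h0
  have hq1 : F z1 / G z1 = 1 := by rw [h1, div_self h0]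
  have h2 : ∀ᶠ z in 𝓝 z1, F z / G z ∈ ({w : ℂ | w ^ N = 1} \ {1})ᶜ := by
    refine hq.eventually_mem (hcl.isOpen_compl.mem_nhds ?_)
    rw [Set.mem_compl_iff]
    rintro ⟨-, h3⟩
    exact h3 hq1
  have h3 : ∀ᶠ z in 𝓝 z1, G z ≠ 0 := (hGa z1 hz1).continuousAt.eventually_ne h0
  have hev : F =ᶠ[𝓝 z1] G := by
    filter_upwards [h2, h3, hU.mem_nhds hz1] with z hz hz' hzU
    have h4 : (F z / G z) ^ N = 1 := by
      rw [div_pow, he z hzU, div_self (pow_ne_zero _ hz')]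
    have h5 : F z / G z = 1 := by
      by_contra hne
      exact hz ⟨h4, hne⟩
    rw [div_eq_one_iff_eq hz'] at h5
    exact h5
  exact hFa.eqOn_of_preconnected_of_eventuallyEq hGa hUc hz1 hev

open Filter Topology in
theorem exists_root {h : ℂ → ℂ} {N : ℕ} (hN : 0 < N) (hd : Differentiable ℂ h)
    (hne : ∃ z, h z ≠ 0) (hev : ∀ (z : ℂ) (n : ℕ), analyticOrderAt h z = n → N ∣ n) :
    ∃ G : ℂ → ℂ, Differentiable ℂ G ∧ ∀ z, G z ^ N = h z := by
  obtain ⟨z1, hz1⟩ := hne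
  obtain ⟨c, hc⟩ : ∃ c : ℂ, c ^ N = h z1 := IsAlgClosed.exists_pow_nat_eq _ hN
  have hc0 : c ≠ 0 := by
    rintro rfl
    apply hz1
    rw [← hc, zero_pow hN.ne']
  set k0 : ℕ := ⌈‖z1‖⌉₊ + 1 with hk0
  have hz1k : ∀ k : ℕ, z1 ∈ Metric.ball (0 : ℂ) ((k0 + k : ℕ) : ℝ) := by
    intro k
    rw [mem_ball_zero_iff]
    have h1 := Nat.le_ceil ‖z1‖
    have hk : (0 : ℝ) ≤ (k : ℝ) := Nat.cast_nonneg k
    rw [hk0]
    push_cast
    linarith
  have hex : ∀ k : ℕ, ∃ F : ℂ → ℂ, DifferentiableOn ℂ F (Metric.ball 0 ((k0 + k : ℕ) : ℝ)) ∧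
      (∀ z ∈ Metric.ball (0 : ℂ) ((k0 + k : ℕ) : ℝ), F z ^ N = h z) ∧ F z1 = c := by
    intro k
    have hpos : (0 : ℝ) < ((k0 + k : ℕ) : ℝ) := by
      rw [hk0]
      positivity
    obtain ⟨F, hF1, hF2⟩ := root_ball hN hd ⟨z1, hz1⟩ hev _ hpos
    have h1 := hF2 z1 (hz1k k)
    have hF0 : F z1 ≠ 0 := by
      intro h0
      rw [h0, zero_pow hN.ne'] at h1
      exact hz1 h1.symm
    refine ⟨fun z => c / F z1 * F z, hF1.const_mul _, ?_, ?_⟩
    · intro z hz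
      rw [mul_pow, div_pow, hc, h1, div_self hz1, one_mul]
      exact hF2 z hz
    · show c / F z1 * F z1 = c
      exact div_mul_cancel₀ _ hF0
  choose F hF1 hF2 hF3 using hex
  have hag : ∀ k l : ℕ, k ≤ l → ∀ z ∈ Metric.ball (0 : ℂ) ((k0 + k : ℕ) : ℝ), F k z = F l z := by
    intro k l hkl
    have hsub : Metric.ball (0 : ℂ) ((k0 + k : ℕ) : ℝ) ⊆ Metric.ball (0 : ℂ) ((k0 + l : ℕ) : ℝ) :=
      Metric.ball_subset_ball (by exact_mod_cast (by omega : k0 + k ≤ k0 + l))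
    exact root_agree hN Metric.isOpen_ball (convex_ball (0 : ℂ) _).isPreconnected (hF1 k)
      ((hF1 l).mono hsub) (hz1k k) (by rw [hF3, hF3]) (by rw [hF3]; exact hc0)
      (fun z hz => by rw [hF2 k z hz, hF2 l z (hsub hz)])
  have hin : ∀ z : ℂ, z ∈ Metric.ball (0 : ℂ) ((k0 + ⌈‖z‖⌉₊ : ℕ) : ℝ) := by
    intro z
    rw [mem_ball_zero_iff]
    have h1 := Nat.le_ceil ‖z‖
    have h2 : (0 : ℝ) ≤ (⌈‖z1‖⌉₊ : ℝ) := Nat.cast_nonneg _
    rw [hk0]
    push_cast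
    linarith
  refine ⟨fun z => F ⌈‖z‖⌉₊ z, ?_, ?_⟩
  · intro z
    have hK : ∀ᶠ w in 𝓝 z, F ⌈‖w‖⌉₊ w = F (⌈‖z‖⌉₊ + 1) w := by
      have h1 : ∀ᶠ w in 𝓝 z, ‖w‖ < ‖z‖ + 1 :=
        continuous_norm.continuousAt.eventually_lt continuousAt_const (by linarith)
      filter_upwards [h1] with w hw
      apply hag _ _ _ w (hin w)
      apply Nat.ceil_le.2
      have := Nat.le_ceil ‖z‖
      push_cast
      linarith
    have hzK : z ∈ Metric.ball (0 : ℂ) ((k0 + (⌈‖z‖⌉₊ + 1) : ℕ) : ℝ) := by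
      have h1 := hin z
      rw [mem_ball_zero_iff] at h1 ⊢
      push_cast at h1 ⊢
      linarith
    have hd2 : DifferentiableAt ℂ (F (⌈‖z‖⌉₊ + 1)) z :=
      (hF1 _).differentiableAt (Metric.isOpen_ball.mem_nhds hzK)
    exact hd2.congr_of_eventuallyEq hK
  · intro z
    exact hF2 _ z (hin z)

/-- two entire functions whose `N`-th powers are proportional are proportional -/
theorem root_prop {G1 G2 : ℂ → ℂ} {N : ℕ} (hN : 0 < N) (h1 : Differentiable ℂ G1)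
    (h2 : Differentiable ℂ G2) (hne : ∃ z, G2 z ≠ 0) {w : ℂ} (hw : w ≠ 0)
    (he : ∀ z, G1 z ^ N = w * G2 z ^ N) : ∃ κ : ℂ, κ ^ N = w ∧ ∀ z, G1 z = κ * G2 z := by
  obtain ⟨z1, hz1⟩ := hne
  have hκ : (G1 z1 / G2 z1) ^ N = w := by
    rw [div_pow, he z1, mul_div_cancel_right₀ _ (pow_ne_zero _ hz1)]
  have hκ0 : G1 z1 / G2 z1 ≠ 0 := by
    intro h0
    rw [h0, zero_pow hN.ne'] at hκ
    exact hw hκ.symm
  refine ⟨G1 z1 / G2 z1, hκ, fun z => ?_⟩
  exact root_agree hN isOpen_univ isPreconnected_univ (F := G1)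
    (G := fun z => G1 z1 / G2 z1 * G2 z) h1.differentiableOn
    (h2.differentiableOn.const_mul _) (Set.mem_univ z1) (div_mul_cancel₀ _ hz1).symm
    (mul_ne_zero hκ0 hz1) (fun z _ => by rw [mul_pow, hκ, he z]) z (Set.mem_univ z)

/-- the same on a half plane -/
theorem root_prop_on {G1 G2 : ℂ → ℂ} {N : ℕ} {x : ℝ} (hN : 0 < N)
    (h1 : DifferentiableOn ℂ G1 {s : ℂ | x < s.re}) (h2 : DifferentiableOn ℂ G2 {s : ℂ | x < s.re})
    (hne : ∀ s : ℂ, x < s.re → G2 s ≠ 0) {w : ℂ} (hw : w ≠ 0)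
    (he : ∀ s : ℂ, x < s.re → G1 s ^ N = w * G2 s ^ N) :
    ∃ κ : ℂ, κ ^ N = w ∧ ∀ s : ℂ, x < s.re → G1 s = κ * G2 s := by
  have hmem : x < (((x + 1 : ℝ) : ℂ)).re := by
    rw [Complex.ofReal_re]
    linarith
  set z1 : ℂ := ((x + 1 : ℝ) : ℂ) with hz1d
  have hz1 : G2 z1 ≠ 0 := hne z1 hmem
  have hκ : (G1 z1 / G2 z1) ^ N = w := by
    rw [div_pow, he z1 hmem, mul_div_cancel_right₀ _ (pow_ne_zero _ hz1)]
  have hκ0 : G1 z1 / G2 z1 ≠ 0 := by
    intro h0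
    rw [h0, zero_pow hN.ne'] at hκ
    exact hw hκ.symm
  refine ⟨G1 z1 / G2 z1, hκ, fun s hs => ?_⟩
  exact root_agree hN (isOpen_lt continuous_const Complex.continuous_re)
    (convex_halfSpace_re_gt x).isPreconnected (F := G1)
    (G := fun z => G1 z1 / G2 z1 * G2 z) h1
    (h2.const_mul _) hmem (div_mul_cancel₀ _ hz1).symm
    (mul_ne_zero hκ0 hz1) (fun z hz => by rw [mul_pow, hκ, he z hz]) s hs

end Pool.Agent.THF
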